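import Pool.Agent.Zk91.PF.Main
import Pool.Agent.K3h17.BT.Thr

set_option autoImplicit false

/-!
# Products of the billiard in a convex polygon with arbitrary measure preserving flows

Let `P` be a convex polygon with an angle which is not a rational multiple of `π`, and let `S` be any
measurable flow on a probability space `(Y, ν)`. We consider the product of the billiard flow in `P` and
`S`: sets `A` of pairs `(x, y)`, `x = (z, θ)` a state of the billiard, `y ∈ Y`, which are invariant
under the product motion, and eigenfunctions `F` of the product (multiplied by `exp (i ω s)` under the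
motion for the time `s` and by `χ i` at each reflection in side `i`). Let `prodOm p ν A h` be the mean
over `y` of the measure of the set of states `x` for which membership of `(x, y)` in `A` changes if the
direction is turned by `h`, and `prodModulus p ν F h` the mean of the integral of the change of `F`.

If this change belongs to one of the three classes below (no condition on the dependence on `y` or `z`),
then `A` is, up to a null set, of the form (phase space) `× B` with a set `B` which is invariant under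
`S`, so `A` is null or conull if `S` is ergodic; and `F (x, y) = m y` almost everywhere with an
eigenfunction `m` of `S` of the same frequency, `m = 0` unless all `χ i = 1`. The classes:

1. at most `Λ h * h * log (1 / h)` for arbitrarily small `h`, for a function `Λ` which depends on `P`
   and tends to infinity, `χ i = ± 1`;
2. for almost every `P`: the lower limit of `m h * log log (1 / h) / (h * log (1 / h) ^ (3 / 2))` is
   `0`, `χ i = ± 1`;
3. `O (h)`, arbitrary unimodular `χ i`.

Proof. `k (y, y') = ∫ F (x, y) * conj (F (x, y')) dx` is the kernel of a compact self-adjoint operator on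
`L² (ν)` which commutes with the flow, so if it is not zero it has an eigenfunction `g` which is also an
eigenfunction of the flow. The average of `F (x, ·)` against `conj g` is an eigenfunction of the billiard;
it is constant by the theorems on the billiard.
-/

namespace Pool.Agent.Results.MP_7bc51d_an.ArbitraryFactors

open Pool.Agent.W780 Pool.Agent.W780.BB Pool.Agent.W780.PG MeasureTheory Filter Topology
  Pool.Agent.TH578.BE Pool.Agent.K3h17.BK Pool.Agent.K3h17.BT Pool.Agent.Zk91.PF

open scoped Real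

universe u

/-- The values `m h` are at most `Λ h * h * log (1 / h)` for arbitrarily small `h > 0`. -/
def BelowFactor (Λ : ℝ → ℝ) (m : ℝ → ENNReal) : Prop :=
  ∃ᶠ h in 𝓝[>] (0 : ℝ), m h ≤ ENNReal.ofReal (Λ h * (h * Real.log (1 / h)))

/-- The values `m h` are at most `C * h` for all `h` between `0` and `1`. -/
def Linear (m : ℝ → ENNReal) : Prop :=
  ∃ C : ℝ, ∀ h : ℝ, 0 < h → h < 1 → m h ≤ ENNReal.ofReal (C * h)

/-- The weights are `1` or `-1`. -/
def Signs {n : ℕ} (χ : Fin (n + 3) → ℂ) : Prop := ∀ i, χ i = 1 ∨ χ i = -1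

/-- The weights have absolute value `1`. -/
def Unimodular {n : ℕ} (χ : Fin (n + 3) → ℂ) : Prop := ∀ i, ‖χ i‖ = 1

/-- For the product of the billiard in `p` with any probability preserving flow `S`: invariant sets
and eigenfunctions (with weights in `W`) for which the change under turning the directions belongs to
the class `C` come from invariant sets and eigenfunctions of `S`. -/
def ProductRigid {n : ℕ} (p : Fin (n + 3) → ℂ) (C : (ℝ → ENNReal) → Prop)
    (W : (Fin (n + 3) → ℂ) → Prop) : Prop :=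
  ∀ (Y : Type u) [MeasurableSpace Y] (ν : Measure Y) [IsProbabilityMeasure ν] (S : ℝ → Y → Y),
    IsFlow ν S →
    (∀ A : Set ((ℂ × ℝ) × Y), MeasurableSet A → IsProdInvariant p S A → C (prodOm p ν A) →
      (∃ B : Set Y, MeasurableSet B ∧ (∀ t y, S t y ∈ B ↔ y ∈ B) ∧
        ∀ᵐ q ∂((volume.restrict (phase p)).prod ν), (q ∈ A ↔ q.2 ∈ B)) ∧
      ((∀ B : Set Y, MeasurableSet B → (∀ t y, S t y ∈ B ↔ y ∈ B) → ν B = 0 ∨ ν Bᶜ = 0) →
        ((volume.restrict (phase p)).prod ν) A = 0 ∨
          ((volume.restrict (phase p)).prod ν) Aᶜ = 0)) ∧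
    (∀ (ω : ℝ) (χ : Fin (n + 3) → ℂ), W χ → ∀ F : (ℂ × ℝ) × Y → ℂ, Measurable F →
      IsProdEigenfunction p S ω χ F → C (prodModulus p ν F) →
        ∃ m : Y → ℂ, Measurable m ∧
          (∀ t y, m (S t y) = Complex.exp (((ω * t : ℝ) : ℂ) * Complex.I) * m y) ∧
          (∀ᵐ q ∂((volume.restrict (phase p)).prod ν), F q = m q.2) ∧
          ((∃ i, χ i ≠ 1) → ∀ y, m y = 0))

theorem small_two {n : ℕ} {p : Fin (n + 3) → ℂ} (m m' : ℝ → ENNReal)
    (h : ∀ h, m' h ≤ 2 * m h) (hm : SmallMod p m) : SmallMod p m' := by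
  intro ε hε
  refine (hm (ε / 2) (by positivity)).mono fun t ht => ?_
  obtain ⟨k, hk1, hk2⟩ := ht
  refine ⟨k, hk1.trans (by linarith), ?_⟩
  calc m' t ≤ 2 * m t := h t
    _ ≤ ENNReal.ofReal 2 * ENNReal.ofReal (ε / 2 * (k * t)) := by
        rw [show (2 : ENNReal) = ENNReal.ofReal 2 by norm_num]
        gcongr
    _ = ENNReal.ofReal (ε * (k * t)) := by
        rw [← ENNReal.ofReal_mul (by norm_num)]
        congr 1
        ring

theorem linear_two (m m' : ℝ → ENNReal) (h : ∀ h, m' h ≤ 2 * m h) (hm : Linear m) :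
    Linear m' := by
  obtain ⟨C, hC⟩ := hm
  refine ⟨2 * C, fun t h0 h1 => ?_⟩
  calc m' t ≤ 2 * m t := h t
    _ ≤ ENNReal.ofReal 2 * ENNReal.ofReal (C * t) := by
        rw [show (2 : ENNReal) = ENNReal.ofReal 2 by norm_num]
        gcongr
        exact hC t h0 h1
    _ = ENNReal.ofReal (2 * C * t) := by
        rw [← ENNReal.ofReal_mul (by norm_num)]
        congr 1
        ring

theorem rigid_of {n : ℕ} {p : Fin (n + 3) → ℂ} (hp : IsConvexPolygon p)
    {C Sc : (ℝ → ENNReal) → Prop} (hC : ∀ m, C m → Sc m)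
    (h2 : ∀ m m' : ℝ → ENNReal, (∀ h, m' h ≤ 2 * m h) → Sc m → Sc m')
    {W : (Fin (n + 3) → ℂ) → Prop} (hW : ∀ χ, W χ → ∀ i, ‖χ i‖ = 1) (hW1 : W fun _ => 1)
    (hsc : ∀ χ, W χ → ScalarRigid p χ Sc) : ProductRigid.{u} p C W := by
  intro Y _ ν _ S hS
  refine ⟨fun A hA hI hM => ?_, fun ω χ hχ F hF hE hM =>
    prod_main hp hS (hW χ hχ) h2 (hsc χ hχ) hF hE (hC _ hM)⟩
  obtain ⟨B, hB, hBS, hAB⟩ := prod_sets hp hS h2 (hsc _ hW1) hA hI (hC _ hM)
  refine ⟨⟨B, hB, hBS, hAB⟩, fun herg => ?_⟩
  have : IsFiniteMeasure (volume.restrict (phase p)) := fin_phase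
  have hsnd : ∀ {Q : Y → Prop}, (∀ᵐ y ∂ν, Q y) →
      ∀ᵐ q ∂((volume.restrict (phase p)).prod ν), Q q.2 := fun h =>
    Measure.quasiMeasurePreserving_snd.ae h
  rcases herg B hB hBS with h | h
  · left
    rw [measure_eq_zero_iff_ae_notMem] at h ⊢
    filter_upwards [hAB, hsnd h] with q h1 h2 h3
    exact h2 (h1.1 h3)
  · right
    rw [measure_eq_zero_iff_ae_notMem] at h ⊢
    filter_upwards [hAB, hsnd h] with q h1 h2 h3
    exact h2 (fun h4 => h3 (h1.2 h4))

theorem signs_norm {n : ℕ} (χ : Fin (n + 3) → ℂ) (h : Signs χ) (i : Fin (n + 3)) :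
    ‖χ i‖ = 1 := by
  rcases h i with h | h <;> rw [h] <;> simp

theorem result (n : ℕ) :
    (∀ p : Fin (n + 3) → ℂ, IsConvexPolygon p → (∃ i, Irrational (ang p i / π)) →
      ∃ Λ : ℝ → ℝ, Tendsto Λ (𝓝[>] 0) atTop ∧ ProductRigid.{u} p (BelowFactor Λ) Signs) ∧
    (∀ᵐ p : Fin (n + 3) → ℂ, IsConvexPolygon p → ProductRigid.{u} p TypBelow Signs) ∧
    (∀ p : Fin (n + 3) → ℂ, IsConvexPolygon p → (∃ i, Irrational (ang p i / π)) →
      ProductRigid.{u} p Linear Unimodular) := by
  have key : ∀ (p : Fin (n + 3) → ℂ), IsConvexPolygon p → (∃ i, Irrational (ang p i / π)) →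
      ∀ C : (ℝ → ENNReal) → Prop, (∀ m, C m → SmallMod p m) → ProductRigid.{u} p C Signs :=
    fun p hp hir C hC => rigid_of hp hC small_two signs_norm (fun _ => Or.inl rfl)
      fun χ hχ ω f hf hE hM => (final_f hp ω χ (signs_norm χ hχ) f hf hE hM).2.2 hir hχ
  refine ⟨fun p hp hir => ⟨Lam p, Lam_tendsto hp, key p hp hir _ fun m hm => small_of_Lam hp hm⟩,
    ?_, fun p hp hir => rigid_of hp (fun m hm => hm) linear_two (fun χ h => h)
      (fun _ => by simp) fun χ hχ ω f hf hE hM => (final hp ω χ hχ f hf hE hM).2.2 hir⟩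
  filter_upwards [ae_typical n, Pool.Agent.TH103.BL.ae_irrational n] with p h1 h2 hp
  exact key p hp ⟨0, h2 hp 0⟩ _ fun m hm => small_of_typ hp (h1 hp) hm

end Pool.Agent.Results.MP_7bc51d_an.ArbitraryFactors
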