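import Pool.Agent.K3h17.BT.Thr
import Pool.Agent.K3h17.BK.Thr
import Pool.Agent.K3h17.BK.FinF

set_option autoImplicit false

/-!
# Billiards in convex polygons: thresholds for invariant sets and eigenfunctions from the complexity

States are pairs `(z, θ)` (position, direction). For a set `A` of states which is invariant under the
billiard flow in the convex polygon `P` let `om p A h` be the measure of the set of states whose
membership in `A` changes when the direction is turned by `h`; for an eigenfunction `f` (multiplied by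
`exp (i ω s)` under free motion for the time `s` and by `χ i = ± 1` at each reflection in side `i`)
let `modulus p f h` be the integral of the change of `f`.

1. For every convex polygon with an angle which is not a rational multiple of `π` there is a
   function `Λ h` which tends to infinity as `h` tends to `0` such that `A` is null or conull if
   `om p A h ≤ Λ h * h * log (1 / h)` for arbitrarily small `h`; this includes all `A` with
   `om p A h = O (h * log (1 / h))` along a sequence. The same class of eigenfunctions consists of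
   constants.
2. For almost every convex polygon the number of the itineraries of length at most `k` is at most
   `exp (C (k log (k + 1)) ^ (2 / 3))`, and `A` is null or conull if the lower limit of
   `om p A h * log log (1 / h) / (h * log (1 / h) ^ (3 / 2))` is `0`. The same class of eigenfunctions
   consists of constants.
-/

namespace Pool.Agent.Results.MP_7bc51d_an.ComplexityThresholds

open Pool.Agent.W780 Pool.Agent.W780.BB Pool.Agent.W780.PG MeasureTheory Filter Topology
  Pool.Agent.TH578.BE Pool.Agent.K3h17.BK Pool.Agent.K3h17.BT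

open scoped Real

/-- The values `m h` are at most `Λ h * h * log (1 / h)` for arbitrarily small `h > 0`. -/
def BelowFactor (Λ : ℝ → ℝ) (m : ℝ → ENNReal) : Prop :=
  ∃ᶠ h in 𝓝[>] (0 : ℝ), m h ≤ ENNReal.ofReal (Λ h * (h * Real.log (1 / h)))

/-- Invariant sets and eigenfunctions for which the change under turning the directions belongs to
the class `S` are trivial. -/
def Rigid {n : ℕ} (p : Fin (n + 3) → ℂ) (S : (ℝ → ENNReal) → Prop) : Prop :=
  (∀ A : Set (ℂ × ℝ), MeasurableSet A → IsInvariant p A → S (om p A) → IsTrivial p A) ∧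
  (∀ (ω : ℝ) (χ : Fin (n + 3) → ℂ), (∀ i, χ i = 1 ∨ χ i = -1) → ∀ f : ℂ × ℝ → ℂ,
    Measurable f → IsEigenfunction p ω χ f → S (modulus p f) →
      ∃ c : ℂ, (∀ᵐ x : ℂ × ℝ, x ∈ phase p → f x = c) ∧ (c ≠ 0 → ω = 0 ∧ ∀ i, χ i = 1))

theorem rigid_of_small {n : ℕ} {p : Fin (n + 3) → ℂ} (hp : IsConvexPolygon p)
    (hir : ∃ i, Irrational (ang p i / π)) {S : (ℝ → ENNReal) → Prop}
    (hS : ∀ m, S m → SmallMod p m) : Rigid p S := by
  refine ⟨fun A hA hI hB => final_s hp hir A hA hI (hS _ hB), ?_⟩
  intro ω χ hχ f hf hE hB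
  have hχ1 : ∀ i, ‖χ i‖ = 1 := by
    intro i
    rcases hχ i with h | h <;> rw [h] <;> simp
  exact (final_f hp ω χ hχ1 f hf hE (hS _ hB)).2.2 hir hχ

theorem result (n : ℕ) :
    (∀ p : Fin (n + 3) → ℂ, IsConvexPolygon p → (∃ i, Irrational (ang p i / π)) →
      ∃ Λ : ℝ → ℝ, Tendsto Λ (𝓝[>] 0) atTop ∧ Rigid p (BelowFactor Λ)) ∧
    (∀ᵐ p : Fin (n + 3) → ℂ, IsConvexPolygon p →
      (∃ C : ℝ, ∀ k : ℕ, 1 ≤ k → ((itin p k).ncard : ℝ) ≤
        Real.exp (C * ((k : ℝ) * Real.log ((k : ℝ) + 1)) ^ (2 / 3 : ℝ))) ∧
      Rigid p TypBelow) := by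
  refine ⟨fun p hp hir => ⟨Lam p, Lam_tendsto hp,
    rigid_of_small hp hir fun m hm => small_of_Lam hp hm⟩, ?_⟩
  filter_upwards [ae_typical n, Pool.Agent.TH103.BL.ae_irrational n] with p h1 h2 hp
  refine ⟨?_, rigid_of_small hp ⟨0, h2 hp 0⟩ fun m hm => small_of_typ hp (h1 hp) hm⟩
  obtain ⟨C, -, hC⟩ := itin_le hp (h1 hp)
  exact ⟨C, hC⟩

end Pool.Agent.Results.MP_7bc51d_an.ComplexityThresholds
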