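import Pool.Agent.Zk55.CF.Fin2
import Pool.Agent.TH103.BL.Gen

/-!
# Billiards in almost every convex polygon: invariant functions which are continuous in the direction

Let no angle of the convex polygon `P` be a rational multiple of `π`; this holds for almost every
polygon. Let `f` be a measurable function of the state (position, direction) which is invariant under
the billiard flow, or invariant up to a sign `χ i = ± 1` for each reflection in side `i`. Suppose that
for almost every position `z` in some (arbitrarily small) neighbourhood of the vertices the function
`θ ↦ f (z, θ)` of the direction agrees almost everywhere with a continuous function. Then `f` is
constant almost everywhere, and the constant is zero if some sign is `-1`. Nothing is assumed about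
the dependence on the position, and nothing about the positions away from the vertices.

In a rational polygon this is false: the continuous functions of the direction which are invariant
under the finite reflection group of the polygon are invariant and not constant.

Proof. Consider the oriented lines which pass at the distance `ρ` from the vertex `p j`. Mean values
over the pencils of lines through the points near `p j` show that, as `ρ → 0`, the values of `f` on
these lines have a weak limit in the incoming directions, the same from both sides of the vertex; by
time reversal the same holds for the outgoing directions. The reflection laws in the two sides at
`p j` and Fourier series (the angle at `p j` is irrational) show that the weak limit is a constant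
`c j`. Hence, for almost every `z` near the vertices, the continuous function `θ ↦ f (z, θ)` has the
value `± c j` at every direction in which an unfolded copy of the vertex `p j` is visible from `z`.
These directions are dense, so the function is constant and equal to every `c j`. Almost every orbit
comes arbitrarily close to a vertex, so `f` is constant.
-/

set_option autoImplicit false

namespace Pool.Agent.Results.MP_7bc51d_an.ContinuousFibres

open Complex Set MeasureTheory Pool.Agent.W780.PG Pool.Agent.W780.BB Pool.Agent.TH578.BE
  Pool.Agent.Zk55.CF

open scoped Real

/-- Invariant functions whose fibres over almost every position near the vertices are continuous in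
the direction are constant almost everywhere, if all angles of the polygon are irrational multiples
of `π`. -/
theorem result (n : ℕ) :
    (∀ᵐ p : Fin (n + 3) → ℂ, IsConvexPolygon p → ∀ i, Irrational (ang p i / π)) ∧
    ∀ p : Fin (n + 3) → ℂ, IsConvexPolygon p → (∀ i, Irrational (ang p i / π)) →
      ∀ χ : Fin (n + 3) → ℂ, (∀ i, χ i = 1 ∨ χ i = -1) →
      ∀ f : ℂ × ℝ → ℂ, Measurable f → IsEigenfunction p 0 χ f → ContinuousNearVertices p f →
        ∃ c : ℂ, (∀ᵐ x : ℂ × ℝ, x.1 ∈ region p → f x = c) ∧ (c ≠ 0 → ∀ i, χ i = 1) :=
  ⟨Pool.Agent.TH103.BL.ae_irrational n, fun _ hp hi _ hχ _ hf hE hC => final hp hi hχ hf hE hC⟩

end Pool.Agent.Results.MP_7bc51d_an.ContinuousFibres
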