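import Pool.Agent.Zk55.RF.Fin3
import Pool.Agent.TH103.BL.Gen

/-!
# Billiards in almost every convex polygon: invariant sets with finitely many arcs in every fibre

Let no angle of the convex polygon `P` be a rational multiple of `π`; this holds for almost every
polygon. Let `f` be a measurable function of the state (position, direction) which is invariant under
the billiard flow. Suppose that for almost every position `z` the function `θ ↦ f (z, θ)` of the
direction agrees almost everywhere with a regulated function (one with limits from both sides
everywhere), for instance with a function of locally bounded variation. Then `f` is constant almost
everywhere. In particular every invariant set whose fibre over almost every position is a finite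
union of arcs of directions is null or conull. Nothing is assumed about the dependence on the
position: the variation, or the number of arcs, need not be integrable or satisfy any other bound.

In a rational polygon this is false: take a union of arcs which is invariant under the finite
reflection group of the polygon.

Proof. Let `P z θ` and `M z θ` be the limits of `f (z, ·)` at `θ` from the two sides.

1. Consider the lines in the direction `θ` at the distance `s` from a vertex `p j`, on one side. For
every incoming direction the values of `f` on these lines have a mean limit as `s` tends to `0`: this
follows from the one-sided limits over a typical segment of positions in front of the vertex. The
limits from the two sides of the vertex agree for almost every outgoing direction: most of the strip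
of lines of width `r` around the line through the vertex stays together until it meets another vertex
`p k`, near a line through `p k` in a backward direction, and the sum of the measures of these
meetings is controlled by the invariant measure on lines. By the reflection laws at the two sides at
`p j` and Fourier series (the angle at `p j` is irrational) the limit is a constant `c j`. Hence for
almost every `z` both `P z θ` and `M z θ` are equal to `c j` at every direction `θ` in which, forwards
or backwards, an unfolded copy of the vertex `p j` is visible. These directions are dense.

2. Suppose that `P z θ ≠ M z θ` for some `θ`, for a set of `z` of positive measure. Two such points
`zR`, `zL` close to each other, on different sides of the line with the direction `θ`, with the same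
pair of values and the same small window of directions, have the jump in the same direction `g`, and
no vertex is visible in the direction `g`, forwards or backwards, from the points between them
(otherwise a vertex would be visible from both points, on the side of the window with the one value
from `zR`, and on the other side from `zL`). So a strip of parallel lines never meets a vertex, and
for almost every point in it the jump is at `g`. The jump persists along the strip. The fibre over
almost every point has finitely many jumps, so the strip has only finitely many directions, infinitely
often the same one; the strip returns to itself and is periodic.

3. In a maximal periodic strip a vertex lies on the boundary. For a point inside, the same vertex of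
the polygon is visible in directions which tend to `g` from one side, forwards, and in directions
which tend to `g` from the other side, backwards. So the values of `f` on the two sides of the jump
are both equal to `c k`, a contradiction. Hence there are no jumps, all `c k` are equal, and `f` is
constant.
-/

set_option autoImplicit false

namespace Pool.Agent.Results.MP_7bc51d_an.RegulatedFibres

open Complex Set MeasureTheory Pool.Agent.W780.PG Pool.Agent.W780.BB Pool.Agent.TH578.BE
  Pool.Agent.Zk55.RF

open scoped Real

/-- Invariant functions whose fibres over almost every position are regulated functions of the
direction are constant almost everywhere, and invariant sets whose fibres over almost every position
are finite unions of arcs are null or conull, if all angles of the polygon are irrational multiples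
of `π`. -/
theorem result (n : ℕ) :
    (∀ᵐ p : Fin (n + 3) → ℂ, IsConvexPolygon p → ∀ i, Irrational (ang p i / π)) ∧
    ∀ p : Fin (n + 3) → ℂ, IsConvexPolygon p → (∀ i, Irrational (ang p i / π)) →
      (∀ f : ℂ × ℝ → ℂ, Measurable f → IsEigenfunction p 0 (fun _ => 1) f →
        (RegulatedFibres p f ∨ BVFibres p f) →
          ∃ c : ℂ, ∀ᵐ x : ℂ × ℝ, x ∈ phase p → f x = c) ∧
      (∀ A : Set (ℂ × ℝ), MeasurableSet A → IsInvariant p A → ArcFibres p A → IsTrivial p A) :=
  ⟨Pool.Agent.TH103.BL.ae_irrational n, fun _ hp hi =>
    ⟨fun _ hf hE hC => hC.elim (final_reg hp hi hf hE) (final_bv hp hi hf hE),
      fun _ hA hI hC => final_arc hp hi hA hI hC⟩⟩

end Pool.Agent.Results.MP_7bc51d_an.RegulatedFibres
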